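import Pool.Agent.Q69.Cyl

/-!
# MP_2aac2f_an: linear growth does not force positive entropy of the hyperspace map

The example is the subshift generated by the sequences `n ↦ parity of ⌊y + n √2⌋`, `y ∈ ℝ`
(a rotation of the circle coded by two half-circles).
-/

set_option autoImplicit false
open Filter Topology Set

namespace Pool.Agent.Results.MP_2aac2f_an.LinearGrowthZeroEntropy

open Q69.Cyl

/-- `Span(T, n, ε)`: the least cardinality of a finite set `E` such that every `x` has some
`y ∈ E` with `d_n(x, y) < ε`, i.e. `d(T^i x, T^i y) < ε` for all `i < n`. -/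
noncomputable def Span {X : Type} [MetricSpace X] (T : X → X) (n : ℕ) (ε : ℝ) : ℕ :=
  sInf {k | ∃ E : Finset X, E.card = k ∧ ∀ x, ∃ y ∈ E, ∀ i < n, dist (T^[i] x) (T^[i] y) < ε}

/-- The order on orders of growth: `[a] ≤ [b]` iff `a(n) ≤ C b(n)` for all `n ≥ 1`, for some
`C > 0`. -/
def GrowthLE (a b : ℕ → ℝ) : Prop := ∃ C : ℝ, 0 < C ∧ ∀ n, 1 ≤ n → a n ≤ C * b n

/-- `o(T) = [n]`: in the Dedekind-MacNeille completion the supremum of the classes
`[Span(T, n, ε)]`, `ε > 0`, is `[n]`; that is, the family `{[Span(T, n, ε)] : ε > 0}` and `[n]` have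
the same upper bounds `[b]` among the orders of growth of non-decreasing sequences. -/
def HasLinearGrowth {X : Type} [MetricSpace X] (T : X → X) : Prop :=
  ∀ b : ℕ → ℝ, (∀ n, 0 ≤ b n) → Monotone b →
    ((∀ ε > 0, GrowthLE (fun n => (Span T n ε : ℝ)) b) ↔ GrowthLE (fun n => (n : ℝ)) b)

/-- Topological entropy (Bowen): `sup_{ε > 0} limsup_n (1/n) log Span(T, n, ε)`. -/
noncomputable def entropy {X : Type} [MetricSpace X] (T : X → X) : EReal :=
  ⨆ ε : ℝ, ⨆ _ : 0 < ε, limsup (fun n : ℕ => ((Real.log (Span T n ε) / n : ℝ) : EReal)) atTop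

/-! ### Two general bounds for `Span` -/

lemma span_le_of_code {X : Type} [MetricSpace X] {T : X → X} {n : ℕ} {ε : ℝ} {C : Type}
    [Fintype C] (F : X → C)
    (h : ∀ x y, F x = F y → ∀ i < n, dist (T^[i] x) (T^[i] y) < ε) :
    Span T n ε ≤ Fintype.card C := by
  classical
  let E : Finset X := (Finset.univ : Finset C).biUnion fun c =>
    if hc : ∃ x, F x = c then {hc.choose} else ∅
  have hE : E.card ≤ Fintype.card C := by
    refine (Finset.card_biUnion_le_card_mul _ _ 1 (fun c _ => ?_)).trans (by simp)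
    split_ifs <;> simp
  have hmem : E.card ∈ {k | ∃ E : Finset X, E.card = k ∧
      ∀ x, ∃ y ∈ E, ∀ i < n, dist (T^[i] x) (T^[i] y) < ε} := by
    refine ⟨E, rfl, fun x => ?_⟩
    have hc : ∃ y, F y = F x := ⟨x, rfl⟩
    refine ⟨hc.choose, ?_, ?_⟩
    · rw [Finset.mem_biUnion]
      refine ⟨F x, Finset.mem_univ _, ?_⟩
      rw [dif_pos hc, Finset.mem_singleton]
    · exact h x _ hc.choose_spec.symm
  exact (Nat.sInf_le hmem).trans hE

lemma le_span_of_sep {X : Type} [MetricSpace X] [CompactSpace X] {T : X → X} (hT : Continuous T)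
    {n : ℕ} {ε : ℝ} (hε : 0 < ε) {m : ℕ} (p : Fin m → X)
    (h : ∀ (j k : Fin m) (y : X), (∀ i < n, dist (T^[i] (p j)) (T^[i] y) < ε) →
      (∀ i < n, dist (T^[i] (p k)) (T^[i] y) < ε) → j = k) : m ≤ Span T n ε := by
  classical
  -- the set of spanning cardinalities is nonempty
  have hne : {k | ∃ E : Finset X, E.card = k ∧
      ∀ x, ∃ y ∈ E, ∀ i < n, dist (T^[i] x) (T^[i] y) < ε}.Nonempty := by
    have hcover := isCompact_univ.elim_nhds_subcover (X := X)
      (fun y => {x | ∀ i < n, dist (T^[i] x) (T^[i] y) < ε}) (by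
        intro y _
        have : {x | ∀ i < n, dist (T^[i] x) (T^[i] y) < ε} =
            ⋂ i ∈ Finset.range n, {x | dist (T^[i] x) (T^[i] y) < ε} := by ext; simp
        apply IsOpen.mem_nhds
        · rw [this]
          exact isOpen_biInter_finset fun i _ =>
            isOpen_lt ((hT.iterate i).dist continuous_const) continuous_const
        · intro i _; simpa using hε)
    obtain ⟨t, -, ht⟩ := hcover
    refine ⟨t.card, t, rfl, fun x => ?_⟩
    obtain ⟨y, hy, hxy⟩ := mem_iUnion₂.1 (ht (mem_univ x))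
    exact ⟨y, hy, hxy⟩
  obtain ⟨E, hE, hspan⟩ := Nat.sInf_mem hne
  change m ≤ sInf _
  rw [← hE]
  choose y hyE hy using fun j => hspan (p j)
  have := Finset.card_le_card_of_injOn (s := Finset.univ) (t := E) y (fun j _ => hyE j) (by
    intro j _ k _ hjk
    exact h j k (y j) (hy j) (by rw [hjk]; exact hy k))
  simpa using this

/-! ### The subshift -/

/-- the rotation number -/
noncomputable def be : ℝ := √2

/-- the coding `j ↦ parity of ⌊y + j √2⌋` -/
noncomputable def code (y : ℝ) (j : ℕ) : Bool := decide (Even ⌊y + j * be⌋)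

lemma code_add (y : ℝ) (i j : ℕ) : code y (i + j) = code (y + i * be) j := by
  unfold code
  congr 3
  push_cast; ring

lemma code_period (y : ℝ) (m : ℤ) (j : ℕ) : code (y + 2 * m) j = code y j := by
  unfold code
  have : y + 2 * (m : ℝ) + j * be = (y + j * be) + ((2 * m : ℤ) : ℝ) := by push_cast; ring
  rw [this, Int.floor_add_intCast]
  congr 1
  rw [Int.even_add]
  simp

/-- the subshift -/
def XX : Set (ℕ → Bool) := {x | ∀ N : ℕ, ∃ y : ℝ, ∀ j < N, code y j = x j}

lemma code_mem (y : ℝ) : code y ∈ XX := fun _ => ⟨y, fun _ _ => rfl⟩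

lemma XX_closed : IsClosed XX := by
  rw [isClosed_iff_cyl]
  intro x h N
  obtain ⟨z, hz, hzx⟩ := h N
  obtain ⟨y, hy⟩ := hz N
  exact ⟨y, fun j hj => (hy j hj).trans (hzx j hj)⟩

lemma XX_shift : ∀ x ∈ XX, (fun k => x (k + 1)) ∈ XX := by
  intro x hx N
  obtain ⟨y, hy⟩ := hx (N + 1)
  refine ⟨y + (1 : ℕ) * be, fun j hj => ?_⟩
  rw [← code_add, add_comm]
  exact hy (j + 1) (by omega)

/-- the shift -/
abbrev TT : XX → XX := shiftOn XX_shift

lemma TT_iter (n : ℕ) (x : XX) (i : ℕ) : (TT^[n] x).1 i = x.1 (i + n) :=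
  shiftOn_iter XX_shift n x i

attribute [local instance] PiNat.metricSpace

noncomputable instance instMetricXX : MetricSpace XX := inferInstance

instance instCompactXX : CompactSpace XX := isCompact_iff_compactSpace.1 XX_closed.isCompact

lemma dist_le_iff (x y : XX) (L : ℕ) : dist x y ≤ (1 / 2) ^ L ↔ ∀ i < L, x.1 i = y.1 i := by
  change dist x.1 y.1 ≤ (1 / 2) ^ L ↔ _
  rw [← PiNat.mem_cylinder_iff_dist_le, PiNat.mem_cylinder_iff]

lemma eq_of_dist_lt {x y : XX} (h : dist x y < 1) : x.1 0 = y.1 0 := by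
  have h' : dist x.1 y.1 < 1 := h
  have : dist x.1 y.1 < (1 / 2) ^ 0 := by simpa using h'
  exact PiNat.apply_eq_of_dist_lt this le_rfl

/-! ### Linear growth -/

/-- the rank function -/
noncomputable def rank (N : ℕ) (y : ℝ) : ℤ := ∑ j ∈ Finset.range N, (⌊y + j * be⌋ - ⌊j * be⌋)

lemma rank_bounds {N : ℕ} {y : ℝ} (h0 : 0 ≤ y) (h2 : y < 2) : 0 ≤ rank N y ∧ rank N y ≤ 2 * N := by
  have h : ∀ j : ℕ, 0 ≤ ⌊y + j * be⌋ - ⌊j * be⌋ ∧ ⌊y + j * be⌋ - ⌊j * be⌋ ≤ 2 := by
    intro j
    constructor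
    · have : ⌊j * be⌋ ≤ ⌊y + j * be⌋ := Int.floor_le_floor (by linarith)
      omega
    · have : ⌊y + j * be⌋ ≤ ⌊(j * be) + (2 : ℤ)⌋ := Int.floor_le_floor (by push_cast; linarith)
      rw [Int.floor_add_intCast] at this
      omega
  constructor
  · exact Finset.sum_nonneg fun j _ => (h j).1
  · calc rank N y ≤ ∑ _j ∈ Finset.range N, (2 : ℤ) := Finset.sum_le_sum fun j _ => (h j).2
      _ = 2 * N := by rw [Finset.sum_const, Finset.card_range, nsmul_eq_mul]; ring

lemma floor_eq_of_rank {N : ℕ} {y y' : ℝ} (h : rank N y = rank N y') :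
    ∀ j < N, ⌊y + j * be⌋ = ⌊y' + j * be⌋ := by
  wlog hle : y ≤ y' generalizing y y' with H
  · intro j hj; exact (H h.symm (le_of_not_ge hle) j hj).symm
  intro j hj
  have hmon : ∀ j : ℕ, ⌊y + j * be⌋ - ⌊j * be⌋ ≤ ⌊y' + j * be⌋ - ⌊j * be⌋ := by
    intro j
    have : ⌊y + j * be⌋ ≤ ⌊y' + j * be⌋ := Int.floor_le_floor (by linarith)
    omega
  have := (Finset.sum_eq_sum_iff_of_le (fun j _ => hmon j)).1 h j (Finset.mem_range.2 hj)
  omega

/-- reduction modulo `2` -/
lemma exists_red (y : ℝ) : ∃ m : ℤ, 0 ≤ y + 2 * m ∧ y + 2 * m < 2 := by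
  refine ⟨-⌊y / 2⌋, ?_, ?_⟩
  · have := Int.floor_le (y / 2); push_cast; linarith
  · have := Int.lt_floor_add_one (y / 2); push_cast; linarith

lemma exists_code (x : XX) (N : ℕ) : ∃ y : ℝ, 0 ≤ y ∧ y < 2 ∧ ∀ j < N, code y j = x.1 j := by
  obtain ⟨y, hy⟩ := x.2 N
  obtain ⟨m, hm1, hm2⟩ := exists_red y
  exact ⟨_, hm1, hm2, fun j hj => by rw [code_period]; exact hy j hj⟩

lemma exists_level {ε : ℝ} (hε : 0 < ε) : ∃ L : ℕ, ((1 / 2 : ℝ)) ^ L < ε :=
  exists_pow_lt_of_lt_one hε (by norm_num)

lemma span_upper {ε : ℝ} (hε : 0 < ε) : ∃ L : ℕ, ∀ n, Span TT n ε ≤ 2 * (n + L) + 1 := by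
  obtain ⟨L, hL⟩ := exists_level hε
  refine ⟨L, fun n => ?_⟩
  choose y hy0 hy2 hy using fun x : XX => exists_code x (n + L)
  let F : XX → Fin (2 * (n + L) + 1) := fun x => ⟨(rank (n + L) (y x)).toNat, by
    have := rank_bounds (N := n + L) (hy0 x) (hy2 x)
    push_cast at this
    omega⟩
  have := span_le_of_code (T := TT) (n := n) (ε := ε) F (by
    intro x x' h i hi
    have h1 : rank (n + L) (y x) = rank (n + L) (y x') := by
      have := congrArg Fin.val h
      simp only [F] at this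
      have b1 := rank_bounds (N := n + L) (hy0 x) (hy2 x)
      have b2 := rank_bounds (N := n + L) (hy0 x') (hy2 x')
      omega
    have h2 := floor_eq_of_rank h1
    refine lt_of_le_of_lt ((dist_le_iff _ _ L).2 ?_) hL
    intro j hj
    rw [TT_iter, TT_iter, ← hy x (j + i) (by omega), ← hy x' (j + i) (by omega)]
    unfold code
    rw [h2 (j + i) (by omega)])
  simpa using this

/-- thresholds -/
noncomputable def tau (j : ℕ) : ℝ := if j = 0 then 0 else 1 - Int.fract (j * be)

lemma irr (j : ℕ) (hj : j ≠ 0) : Irrational (j * be) := by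
  unfold be
  exact irrational_sqrt_two.natCast_mul hj

lemma tau_nonneg (j : ℕ) : 0 ≤ tau j := by
  unfold tau
  split_ifs
  · exact le_rfl
  · have := (Int.fract_lt_one ((j : ℝ) * be)).le
    linarith

lemma tau_inj : Function.Injective tau := by
  have key : ∀ j k : ℕ, j < k → tau j ≠ tau k := by
    intro j k hjk h
    have hk : k ≠ 0 := by omega
    unfold tau at h
    rw [if_neg hk] at h
    split_ifs at h with hj
    · have : Int.fract ((k : ℝ) * be) = 1 := by linarith
      have := Int.fract_lt_one ((k : ℝ) * be)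
      linarith
    · have h1 : Int.fract ((j : ℝ) * be) = Int.fract ((k : ℝ) * be) := by linarith
      obtain ⟨z, hz⟩ := Int.fract_eq_fract.1 h1.symm
      have h2 : ((k - j : ℕ) : ℝ) * be = z := by
        rw [Nat.cast_sub hjk.le, sub_mul]; exact hz
      exact (irr (k - j) (by omega)).ne_int z h2
  intro j k h
  by_contra hne
  rcases Nat.lt_or_gt_of_ne hne with h1 | h1
  · exact key j k h1 h
  · exact key k j h1 h.symm

lemma tau_sep {j k : ℕ} (h : tau j < tau k) : code (tau j) k ≠ code (tau k) k := by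
  have hk : k ≠ 0 := by
    rintro rfl
    have := tau_nonneg j
    unfold tau at h this
    simp at h
    linarith [tau_nonneg j, show tau j < 0 from h]
  have htk : tau k = 1 - Int.fract (k * be) := if_neg hk
  have e1 : ⌊tau k + k * be⌋ = ⌊k * be⌋ + 1 := by
    rw [htk]
    have : 1 - Int.fract (k * be) + k * be = ((⌊k * be⌋ + 1 : ℤ) : ℝ) := by
      have := Int.floor_add_fract (k * be)
      push_cast
      linarith
    rw [this, Int.floor_intCast]
  have e2 : ⌊tau j + k * be⌋ = ⌊k * be⌋ := by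
    rw [Int.floor_eq_iff]
    have h1 := Int.floor_add_fract (k * be)
    have h2 := Int.fract_nonneg (k * be)
    have h3 := tau_nonneg j
    rw [htk] at h
    constructor <;> linarith
  unfold code
  rw [e1, e2, ne_eq, decide_eq_decide, Int.even_add_one]
  tauto

lemma span_lower (n : ℕ) {ε : ℝ} (hε : 0 < ε) (hε1 : ε ≤ 1) : n ≤ Span TT n ε := by
  apply le_span_of_sep (shiftOn_cont _) hε (fun j : Fin n => (⟨code (tau j), code_mem _⟩ : XX))
  intro j k y hj hk
  have hw : ∀ i < n, code (tau j) i = code (tau k) i := by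
    intro i hi
    have a1 := eq_of_dist_lt (lt_of_lt_of_le (hj i hi) hε1)
    have a2 := eq_of_dist_lt (lt_of_lt_of_le (hk i hi) hε1)
    rw [TT_iter, TT_iter] at a1 a2
    rw [zero_add] at a1 a2
    exact a1.trans a2.symm
  rcases lt_trichotomy (tau j) (tau k) with h | h | h
  · exact absurd (hw k k.2) (tau_sep h)
  · exact Fin.ext (tau_inj h)
  · exact absurd (hw j j.2).symm (tau_sep h)

lemma linear_growth : HasLinearGrowth TT := by
  intro b _ _
  constructor
  · intro h
    obtain ⟨C, hC, hb⟩ := h 1 one_pos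
    refine ⟨C, hC, fun n hn => ?_⟩
    have h1 : (n : ℝ) ≤ Span TT n 1 := by exact_mod_cast span_lower n one_pos le_rfl
    exact h1.trans (hb n hn)
  · rintro ⟨C, hC, hb⟩ ε hε
    obtain ⟨L, hL⟩ := span_upper hε
    refine ⟨(2 * L + 3) * C, by positivity, fun n hn => ?_⟩
    have h1 : (Span TT n ε : ℝ) ≤ 2 * (n + L) + 1 := by exact_mod_cast hL n
    have hn1 : (1 : ℝ) ≤ n := by exact_mod_cast hn
    have h2 := hb n hn
    have hL0 : (0 : ℝ) ≤ L := Nat.cast_nonneg L
    calc (Span TT n ε : ℝ) ≤ 2 * (n + L) + 1 := h1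
      _ ≤ (2 * L + 3) * n := by nlinarith
      _ ≤ (2 * L + 3) * (C * b n) := by gcongr
      _ = (2 * L + 3) * C * b n := by ring

/-! ### The hyperspace map -/

/-- the cell of a word -/
def cell {L : ℕ} (w : Fin L → Bool) : Set ℝ := {y | ∀ j : Fin L, code y j = w j}

/-- a lower bound for the distances between cut points -/
lemma exists_gap (L : ℕ) : ∃ ℓ : ℝ, 0 < ℓ ∧ ∀ (i j : ℕ), i < L → j < L → ∀ m : ℤ,
    m - (i : ℝ) * be + j * be ≠ 0 → ℓ ≤ |m - (i : ℝ) * be + j * be| := by
  -- distance to the nearest integers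
  let g : ℕ × ℕ → ℝ := fun q =>
    let r := Int.fract ((q.2 : ℝ) * be - q.1 * be)
    if r = 0 then 1 else min r (1 - r)
  have hg : ∀ q, 0 < g q := by
    intro q
    simp only [g]
    split_ifs with h
    · exact one_pos
    · apply lt_min
      · exact lt_of_le_of_ne (Int.fract_nonneg _) (Ne.symm h)
      · have := Int.fract_lt_one ((q.2 : ℝ) * be - q.1 * be)
        linarith
  have hgi : ∀ (i j : ℕ) (m : ℤ), m - (i : ℝ) * be + j * be ≠ 0 →
      g (i, j) ≤ |m - (i : ℝ) * be + j * be| := by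
    intro i j m hne
    set t := (j : ℝ) * be - i * be with ht
    have e1 : m - (i : ℝ) * be + j * be = (m + ⌊t⌋ : ℤ) + Int.fract t := by
      have := Int.floor_add_fract t
      push_cast
      linarith
    rw [e1] at hne ⊢
    set k := m + ⌊t⌋ with hk
    have h0 := Int.fract_nonneg t
    have h1 := Int.fract_lt_one t
    change (if Int.fract t = 0 then (1 : ℝ) else min (Int.fract t) (1 - Int.fract t)) ≤ _
    split_ifs with h
    · rw [h, add_zero] at hne ⊢
      have hk0 : k ≠ 0 := by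
        intro h; apply hne; rw [h]; simp
      have : (1 : ℤ) ≤ |k| := Int.one_le_abs hk0
      have : ((1 : ℤ) : ℝ) ≤ ((|k| : ℤ) : ℝ) := by exact_mod_cast this
      rw [Int.cast_abs] at this
      simpa using this
    · rcases lt_or_ge k 0 with hk0 | hk0
      · have : (k : ℝ) ≤ -1 := by exact_mod_cast (by omega : k ≤ -1)
        refine (min_le_right _ _).trans ?_
        rw [abs_of_nonpos (by linarith)]
        linarith
      · have : (0 : ℝ) ≤ k := by exact_mod_cast hk0
        refine (min_le_left _ _).trans ?_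
        rw [abs_of_nonneg (by linarith)]
        linarith
  rcases Nat.eq_zero_or_pos L with h | h
  · exact ⟨1, one_pos, fun i j hi => by omega⟩
  · have hne : ((Finset.range L) ×ˢ (Finset.range L)).Nonempty :=
      ⟨(0, 0), by simp [h]⟩
    refine ⟨((Finset.range L) ×ˢ (Finset.range L)).inf' hne g, ?_, ?_⟩
    · rw [Finset.lt_inf'_iff]; exact fun q _ => hg q
    · intro i j hi hj m hm
      exact (Finset.inf'_le g (by simp [hi, hj] : (i, j) ∈ _)).trans (hgi i j m hm)

/-- between two points with different codes there is a cut point -/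
lemma exists_cut {L : ℕ} {w : Fin L → Bool} {y y' : ℝ} (hyy : y ≤ y')
    (h : ¬ (y ∈ cell w ↔ y' ∈ cell w)) : ∃ (j : ℕ) (m : ℤ), j < L ∧ y < m - j * be ∧
      m - j * be ≤ y' := by
  have hex : ∃ j : Fin L, code y j ≠ code y' j := by
    by_contra hcon
    push Not at hcon
    apply h
    constructor
    · intro hy j; rw [← hcon j]; exact hy j
    · intro hy j; rw [hcon j]; exact hy j
  obtain ⟨j, hj⟩ := hex
  have hfl : ⌊y + j * be⌋ ≠ ⌊y' + j * be⌋ := by
    intro h; apply hj; unfold code; rw [h]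
  have hlt : ⌊y + j * be⌋ < ⌊y' + j * be⌋ :=
    lt_of_le_of_ne (Int.floor_le_floor (by linarith)) hfl
  refine ⟨j, ⌊y' + j * be⌋, j.2, ?_, ?_⟩
  · have h1 := Int.lt_floor_add_one (y + j * be)
    have h2 : ((⌊y + j * be⌋ : ℝ)) + 1 ≤ ⌊y' + j * be⌋ := by exact_mod_cast hlt
    linarith
  · have := Int.floor_le (y' + j * be)
    linarith

/-- the key property of cells -/
lemma cell_convex {L : ℕ} {ℓ : ℝ} (hℓ : ∀ (i j : ℕ), i < L → j < L → ∀ m : ℤ,
    m - (i : ℝ) * be + j * be ≠ 0 → ℓ ≤ |m - (i : ℝ) * be + j * be|) {w : Fin L → Bool}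
    {y u v : ℝ} (hy : y ∈ cell w) (hu : 0 ≤ u) (hv : 0 ≤ v) (huv : u + v < ℓ) :
    y - u ∈ cell w ∨ y + v ∈ cell w := by
  by_contra hcon
  push Not at hcon
  obtain ⟨i, m, hi, h1, h2⟩ := exists_cut (w := w) (y := y - u) (y' := y) (by linarith)
    (by intro h; exact hcon.1 (h.2 hy))
  obtain ⟨j, m', hj, h3, h4⟩ := exists_cut (w := w) (y := y) (y' := y + v) (by linarith)
    (by intro h; exact hcon.2 (h.1 hy))
  have hpos : 0 < ((m' - m : ℤ) : ℝ) - (j : ℝ) * be + i * be := by push_cast; linarith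
  have := hℓ j i hj hi (m' - m) hpos.ne'
  rw [abs_of_pos hpos] at this
  push_cast at this
  linarith

lemma cell_period {L : ℕ} {w : Fin L → Bool} (y : ℝ) (m : ℤ) :
    y + 2 * m ∈ cell w ↔ y ∈ cell w := by
  simp only [cell, mem_ofPred_eq, code_period]

/-- the real points following a compact set -/
def SS (N : ℕ) (K : Set XX) : Set ℝ := {y | ∃ x ∈ K, ∀ j < N, code y j = x.1 j}

/-- the rotation angle, reduced -/
noncomputable def th (i : ℕ) : ℝ := i * be + 2 * (exists_red (i * be)).choose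

lemma th_mem (i : ℕ) : 0 ≤ th i ∧ th i < 2 := (exists_red (i * be)).choose_spec

lemma mem_cell_th {L : ℕ} {w : Fin L → Bool} (s : ℝ) (i : ℕ) :
    s + th i ∈ cell w ↔ s + i * be ∈ cell w := by
  unfold th
  rw [← add_assoc, cell_period]

/-- the word `w` is missing in `T^i K` -/
def Miss {L : ℕ} (S : Set ℝ) (w : Fin L → Bool) (θ : ℝ) : Prop := ∀ s ∈ S, s + θ ∉ cell w

lemma miss_convex {L : ℕ} {ℓ : ℝ} (hℓ : ∀ (i j : ℕ), i < L → j < L → ∀ m : ℤ,
    m - (i : ℝ) * be + j * be ≠ 0 → ℓ ≤ |m - (i : ℝ) * be + j * be|) {S : Set ℝ}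
    {w : Fin L → Bool} {a t c : ℝ} (ha : Miss S w a) (hc : Miss S w c) (hat : a ≤ t) (htc : t ≤ c)
    (hac : c - a < ℓ) : Miss S w t := by
  intro s hs hmem
  rcases cell_convex hℓ (u := t - a) (v := c - t) hmem (by linarith) (by linarith) (by linarith)
    with h | h
  · apply ha s hs
    rwa [show s + t - (t - a) = s + a by ring] at h
  · apply hc s hs
    rwa [show s + t + (c - t) = s + c by ring] at h

open Classical in
/-- indices `i < n` in the window `b` at which `w` is missing -/
noncomputable def missSet {L : ℕ} (ℓ : ℝ) (n : ℕ) (S : Set ℝ) (w : Fin L → Bool) (b : ℕ) :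
    Finset (Fin n) :=
  Finset.univ.filter fun i => ⌊th i / ℓ⌋₊ = b ∧ Miss S w (th i)

open Classical in
/-- the code of a set: for each word and window the extreme missing indices -/
noncomputable def pat {L : ℕ} (ℓ : ℝ) (n B : ℕ) (S : Set ℝ) (q : (Fin L → Bool) × Fin B) :
    Option (Fin n × Fin n) :=
  if h : (missSet ℓ n S q.1 q.2).Nonempty then
    some ((Finset.exists_min_image _ (fun i : Fin n => th i) h).choose,
      (Finset.exists_max_image _ (fun i : Fin n => th i) h).choose)
  else none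

lemma pat_spec {L : ℕ} {ℓ : ℝ} (hℓ0 : 0 < ℓ) (hℓ : ∀ (i j : ℕ), i < L → j < L → ∀ m : ℤ,
    m - (i : ℝ) * be + j * be ≠ 0 → ℓ ≤ |m - (i : ℝ) * be + j * be|) {n B : ℕ} {S S' : Set ℝ}
    {q : (Fin L → Bool) × Fin B} (h : pat ℓ n B S q = pat ℓ n B S' q) :
    missSet ℓ n S q.1 q.2 ⊆ missSet ℓ n S' q.1 q.2 := by
  intro i hi
  have hne : (missSet ℓ n S q.1 q.2).Nonempty := ⟨i, hi⟩
  have h1 : pat ℓ n B S q = some ((Finset.exists_min_image _ (fun i : Fin n => th i) hne).choose,
      (Finset.exists_max_image _ (fun i : Fin n => th i) hne).choose) := dif_pos hne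
  have hmin := (Finset.exists_min_image _ (fun i : Fin n => th i) hne).choose_spec
  have hmax := (Finset.exists_max_image _ (fun i : Fin n => th i) hne).choose_spec
  have hne' : (missSet ℓ n S' q.1 q.2).Nonempty := by
    by_contra hcon
    have : pat ℓ n B S' q = none := dif_neg hcon
    rw [← h, h1] at this
    exact absurd this (by simp)
  have h2 : pat ℓ n B S' q = some ((Finset.exists_min_image _ (fun i : Fin n => th i) hne').choose,
      (Finset.exists_max_image _ (fun i : Fin n => th i) hne').choose) := dif_pos hne'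
  have hmin' := (Finset.exists_min_image _ (fun i : Fin n => th i) hne').choose_spec
  have hmax' := (Finset.exists_max_image _ (fun i : Fin n => th i) hne').choose_spec
  rw [h1, h2, Option.some.injEq, Prod.mk.injEq] at h
  rw [← h.1] at hmin'
  rw [← h.2] at hmax'
  set imin := (Finset.exists_min_image _ (fun i : Fin n => th i) hne).choose
  set imax := (Finset.exists_max_image _ (fun i : Fin n => th i) hne).choose
  have ha := hmin'.1
  have hc := hmax'.1
  have hia := hmin.2 i hi
  have hic := hmax.2 i hi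
  simp only [missSet, Finset.mem_filter, Finset.mem_univ, true_and] at ha hc hi ⊢
  refine ⟨hi.1, miss_convex hℓ ha.2 hc.2 hia hic ?_⟩
  -- the window has length `ℓ`
  have e1 := Nat.floor_le (div_nonneg (th_mem imin).1 hℓ0.le)
  have e2 := Nat.lt_floor_add_one (th imax / ℓ)
  rw [ha.1] at e1
  rw [hc.1] at e2
  rw [le_div_iff₀ hℓ0] at e1
  rw [div_lt_iff₀ hℓ0] at e2
  linarith

/-- equal codes give equal missing sets -/
lemma miss_iff_of_pat {L : ℕ} {ℓ : ℝ} (hℓ0 : 0 < ℓ) (hℓ : ∀ (i j : ℕ), i < L → j < L → ∀ m : ℤ,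
    m - (i : ℝ) * be + j * be ≠ 0 → ℓ ≤ |m - (i : ℝ) * be + j * be|) {n B : ℕ}
    (hB : 2 ≤ B * ℓ) {S S' : Set ℝ}
    (h : (pat ℓ n B S : (Fin L → Bool) × Fin B → _) = pat ℓ n B S') (w : Fin L → Bool) {i : ℕ}
    (hi : i < n) (hm : Miss S w (th i)) : Miss S' w (th i) := by
  have hb : ⌊th i / ℓ⌋₊ < B := by
    rw [Nat.floor_lt (div_nonneg (th_mem i).1 hℓ0.le), div_lt_iff₀ hℓ0]
    exact lt_of_lt_of_le (th_mem i).2 hB
  have hsub := pat_spec hℓ0 hℓ (congrFun h (w, ⟨_, hb⟩))
  have hmem : (⟨i, hi⟩ : Fin n) ∈ missSet ℓ n S w ⌊th i / ℓ⌋₊ := by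
    simp only [missSet, Finset.mem_filter, Finset.mem_univ, true_and]
    exact hm
  have := hsub hmem
  simp only [missSet, Finset.mem_filter, Finset.mem_univ, true_and] at this
  exact this

/-- the hyperspace map -/
noncomputable abbrev TK : TopologicalSpace.NonemptyCompacts XX → TopologicalSpace.NonemptyCompacts XX :=
  TopologicalSpace.NonemptyCompacts.map TT (shiftOn_cont _)

lemma TK_iter (n : ℕ) (K : TopologicalSpace.NonemptyCompacts XX) :
    ((TK^[n] K : TopologicalSpace.NonemptyCompacts XX) : Set XX) = TT^[n] '' K := by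
  induction n with
  | zero => simp
  | succ n ih =>
    rw [Function.iterate_succ_apply', TopologicalSpace.NonemptyCompacts.coe_map, ih, ← image_comp]
    congr 1
    rw [← Function.iterate_succ']

lemma span_hyper {ε : ℝ} (hε : 0 < ε) : ∃ D : ℕ, ∀ n, Span TK n ε ≤ (n * n + 1) ^ D := by
  obtain ⟨L, hL⟩ := exists_level (half_pos hε)
  obtain ⟨ℓ, hℓ0, hℓ⟩ := exists_gap L
  obtain ⟨B, hB⟩ := exists_nat_ge (2 / ℓ)
  have hB' : 2 ≤ B * ℓ := by rwa [div_le_iff₀ hℓ0] at hB
  refine ⟨Fintype.card ((Fin L → Bool) × Fin B), fun n => ?_⟩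
  have key : ∀ (K K' : TopologicalSpace.NonemptyCompacts XX),
      (pat ℓ n B (SS (n + L) K) : (Fin L → Bool) × Fin B → _) = pat ℓ n B (SS (n + L) K') →
      ∀ i < n, ∀ z ∈ TT^[i] '' (K : Set XX), ∃ z' ∈ TT^[i] '' (K' : Set XX),
        dist z z' ≤ ε / 2 := by
    intro K K' h i hi z hz
    obtain ⟨x, hx, rfl⟩ := hz
    let w : Fin L → Bool := fun j => x.1 (j + i)
    -- `w` is not missing for `K`
    obtain ⟨y, hy⟩ := x.2 (n + L)
    have hnot : ¬ Miss (SS (n + L) K) w (th i) := by
      intro hm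
      apply hm y ⟨x, hx, hy⟩
      rw [mem_cell_th]
      intro j
      have hj := j.2
      rw [← code_add, hy (i + j) (by omega)]
      change x.1 (i + j) = x.1 (j + i)
      rw [add_comm]
    have hnot' : ¬ Miss (SS (n + L) K') w (th i) := fun hm =>
      hnot (miss_iff_of_pat hℓ0 hℓ hB' h.symm w hi hm)
    unfold Miss at hnot'
    push Not at hnot'
    obtain ⟨s, ⟨x', hx', hsx⟩, hs⟩ := hnot'
    rw [mem_cell_th] at hs
    refine ⟨TT^[i] x', ⟨x', hx', rfl⟩, ?_⟩
    refine le_trans ((dist_le_iff _ _ L).2 ?_) hL.le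
    intro j hj
    rw [TT_iter, TT_iter]
    have h1 := hs ⟨j, hj⟩
    simp only [w] at h1
    rw [← h1, ← code_add, hsx (i + j) (by omega)]
    change x'.1 (i + j) = x'.1 (j + i)
    rw [add_comm]
  have := span_le_of_code (T := TK) (n := n) (ε := ε)
    (fun K => (pat ℓ n B (SS (n + L) K) : (Fin L → Bool) × Fin B → _)) (by
      intro K K' h i hi
      rw [Metric.NonemptyCompacts.dist_eq]
      refine lt_of_le_of_lt (b := ε / 2) ?_ (by linarith)
      apply Metric.hausdorffDist_le_of_mem_dist (by linarith)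
      · rw [TK_iter, TK_iter]
        exact key K K' h i hi
      · rw [TK_iter, TK_iter]
        exact key K' K h.symm i hi)
  refine this.trans (le_of_eq ?_)
  rw [Fintype.card_fun, Fintype.card_option, Fintype.card_prod, Fintype.card_fin]

lemma entropy_zero : entropy TK = 0 := by
  unfold entropy
  have hle : ∀ ε : ℝ, 0 < ε →
      limsup (fun n : ℕ => ((Real.log (Span TK n ε) / n : ℝ) : EReal)) atTop = 0 := by
    intro ε hε
    obtain ⟨D, hD⟩ := span_hyper hε
    apply Tendsto.limsup_eq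
    rw [← EReal.coe_zero]
    apply (continuous_coe_real_ereal.tendsto _).comp
    have hlim : Tendsto (fun n : ℕ => (D : ℝ) * (3 * (Real.log n / n))) atTop (𝓝 0) := by
      have h1 : Tendsto (fun n : ℕ => Real.log n / n) atTop (𝓝 0) := by
        have := Real.isLittleO_log_id_atTop.tendsto_div_nhds_zero
        exact this.comp tendsto_natCast_atTop_atTop
      have := (h1.const_mul 3).const_mul (D : ℝ)
      simpa using this
    refine squeeze_zero' (Eventually.of_forall fun n => ?_) ?_ hlim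
    · exact div_nonneg (Real.log_natCast_nonneg _) (Nat.cast_nonneg _)
    · filter_upwards [eventually_ge_atTop 2] with n hn
      have hn2 : (2 : ℝ) ≤ n := by exact_mod_cast hn
      have hn0 : (0 : ℝ) < n := by linarith
      have hlogn : 0 ≤ Real.log n := Real.log_nonneg (by linarith)
      have h1 : Real.log (Span TK n ε) ≤ D * (3 * Real.log n) := by
        rcases Nat.eq_zero_or_pos (Span TK n ε) with h0 | h0
        · rw [h0]; simp only [Nat.cast_zero, Real.log_zero]; positivity
        · calc Real.log (Span TK n ε) ≤ Real.log (((n * n + 1) ^ D : ℕ) : ℝ) :=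
              Real.log_le_log (by exact_mod_cast h0) (by exact_mod_cast hD n)
            _ = D * Real.log (n * n + 1) := by push_cast; rw [Real.log_pow]
            _ ≤ D * Real.log (n ^ 3) := by
                apply mul_le_mul_of_nonneg_left _ (Nat.cast_nonneg _)
                apply Real.log_le_log (by positivity)
                nlinarith [mul_pos hn0 hn0]
            _ = D * (3 * Real.log n) := by rw [Real.log_pow]; norm_num
      calc Real.log (Span TK n ε) / n ≤ D * (3 * Real.log n) / n := by gcongr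
        _ = D * (3 * (Real.log n / n)) := by ring
  apply le_antisymm
  · exact iSup_le fun ε => iSup_le fun hε => (hle ε hε).le
  · refine le_trans (le_of_eq (hle 1 one_pos).symm) ?_
    exact le_iSup_of_le 1 (le_iSup_of_le one_pos le_rfl)

/-- There are a compact metric space `X` and a continuous `T : X → X` with `o(T) = [n]` whose
hyperspace map `T_𝒦 : 𝒦(X) → 𝒦(X)`, `K ↦ T(K)` (Hausdorff metric), has topological entropy `0`. -/
theorem result : ∃ (X : Type) (_ : MetricSpace X) (_ : CompactSpace X) (T : X → X)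
    (hT : Continuous T), HasLinearGrowth T ∧
      entropy (TopologicalSpace.NonemptyCompacts.map T hT) = 0 :=
  ⟨XX, instMetricXX, instCompactXX, TT, shiftOn_cont _, linear_growth, entropy_zero⟩

end Pool.Agent.Results.MP_2aac2f_an.LinearGrowthZeroEntropy
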